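import Mathlib

/-!
# The broadcast dimension of a graph: definitions
-/

namespace Pool.Agent.Q324.BD

variable {V : Type*}

/-- `d_k(x,y) = min{d(x,y), k+1}`, where `d` is the distance in the graph, infinite for vertices in
different components. -/
noncomputable def dk (G : SimpleGraph V) (k : ℕ) (x y : V) : ℕ∞ := min (G.edist x y) (k + 1)

/-- `f` is a resolving broadcast: for every two distinct vertices `x, y` there is a vertex `z`
with `f z = i > 0` and `d_i(x,z) ≠ d_i(y,z)`. -/
def Resolving (G : SimpleGraph V) (f : V → ℕ) : Prop :=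
  ∀ x y, x ≠ y → ∃ z, 0 < f z ∧ dk G (f z) x z ≠ dk G (f z) y z

/-- The broadcast dimension: the minimum of `∑ f(v)` over the resolving broadcasts `f`. -/
noncomputable def bdim [Fintype V] (G : SimpleGraph V) : ℕ :=
  sInf {c | ∃ f : V → ℕ, Resolving G f ∧ ∑ v, f v = c}

end Pool.Agent.Q324.BD
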