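import Pool.Agent.Q324.BD.Lemmas

/-!
# The graph of a hitting set instance
-/

namespace Pool.Agent.Q324.BD

/-- vertices: the universal vertex, the twins, the pairs of the sets, the elements -/
inductive Vx (J E : ℕ) : Type
  | u : Vx J E
  | b (g : Fin (J + E + 1)) (s : Bool) : Vx J E
  | c (j : Fin J) (s : Bool) : Vx J E
  | v (e : Fin E) : Vx J E
  deriving DecidableEq

/-- labels -/
abbrev Lb : Type := ℕ × ℕ × Bool

/-- the label of a vertex -/
def code {J E : ℕ} : Vx J E → Lb
  | .u => (0, 0, false)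
  | .b g s => (1, g.1, s)
  | .c j s => (2, j.1, s)
  | .v e => (3, e.1, false)

theorem code_inj {J E : ℕ} : Function.Injective (code : Vx J E → Lb) := by
  intro x y h
  cases x <;> cases y <;> simp [code, Fin.val_inj] at h ⊢ <;> exact h

/-- adjacency of labels (one direction) -/
def ad (J E : ℕ) (inc : ℕ → ℕ → Bool) (x y : Lb) : Bool :=
  decide (x.1 = 0) || (decide (x.1 = 1) && (
    (decide (y.1 = 1) && decide (x.2.1 = y.2.1)) ||
    (decide (y.1 = 2) && (decide (x.2.1 = y.2.1) || decide (x.2.1 = J + E))) ||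
    (decide (y.1 = 3) && (decide (x.2.1 = J + y.2.1) || decide (x.2.1 = J + E))))) ||
  (decide (x.1 = 3) && (decide (y.1 = 2) && (y.2.2 && inc y.2.1 x.2.1)))

/-- the graph -/
def GG (J E : ℕ) (inc : ℕ → ℕ → Bool) : SimpleGraph (Vx J E) where
  Adj x y := code x ≠ code y ∧ (ad J E inc (code x) (code y) = true ∨
    ad J E inc (code y) (code x) = true)
  symm := ⟨fun _ _ h => ⟨h.1.symm, h.2.symm⟩⟩
  loopless := ⟨fun _ h => h.1 rfl⟩

variable {J E : ℕ} {inc : ℕ → ℕ → Bool}

theorem adj_iff {x y : Vx J E} : (GG J E inc).Adj x y ↔ code x ≠ code y ∧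
    (ad J E inc (code x) (code y) = true ∨ ad J E inc (code y) (code x) = true) := Iff.rfl

theorem adj_u {x : Vx J E} : (GG J E inc).Adj .u x ↔ x ≠ .u := by
  rw [adj_iff, code_inj.ne_iff]
  cases x <;> simp [code, ad]

theorem adj_bb {g g' : Fin (J + E + 1)} {s s' : Bool} :
    (GG J E inc).Adj (.b g s) (.b g' s') ↔ g = g' ∧ s ≠ s' := by
  rw [adj_iff, code_inj.ne_iff]
  simp only [ne_eq, Vx.b.injEq, code, ad, decide_true, Bool.true_and]
  simp only [one_ne_zero, decide_false, Bool.false_or, OfNat.one_ne_ofNat, Bool.false_and,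
    Bool.or_false, decide_eq_true_eq, Fin.val_inj]
  constructor
  · rintro ⟨h1, h2 | h2⟩
    · exact ⟨h2, fun h => h1 ⟨h2, h⟩⟩
    · exact ⟨h2.symm, fun h => h1 ⟨h2.symm, h⟩⟩
  · rintro ⟨h1, h2⟩
    exact ⟨fun h => h2 h.2, Or.inl h1⟩

theorem adj_bc {g : Fin (J + E + 1)} {s s' : Bool} {j : Fin J} :
    (GG J E inc).Adj (.b g s) (.c j s') ↔ g.1 = j.1 ∨ g.1 = J + E := by
  rw [adj_iff, code_inj.ne_iff]
  simp [code, ad]

theorem adj_bv {g : Fin (J + E + 1)} {s : Bool} {e : Fin E} :
    (GG J E inc).Adj (.b g s) (.v e) ↔ g.1 = J + e.1 ∨ g.1 = J + E := by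
  rw [adj_iff, code_inj.ne_iff]
  simp [code, ad]

theorem adj_cc {j j' : Fin J} {s s' : Bool} : ¬ (GG J E inc).Adj (.c j s) (.c j' s') := by
  rw [adj_iff]
  simp [code, ad]

theorem adj_vc {e : Fin E} {j : Fin J} {s : Bool} :
    (GG J E inc).Adj (.v e) (.c j s) ↔ s = true ∧ inc j.1 e.1 = true := by
  rw [adj_iff, code_inj.ne_iff]
  simp [code, ad]

/-- hitting sets -/
def Hit (J E : ℕ) (inc : ℕ → ℕ → Bool) (k : ℕ) : Prop :=
  ∃ T : Finset ℕ, (∀ e ∈ T, e < E) ∧ T.card ≤ k ∧ ∀ j < J, ∃ e ∈ T, inc j e = true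

/-- From a hitting set to a resolving set. -/
theorem LD_of_hit (hJ : 1 ≤ J) (hE : 1 ≤ E) {k : ℕ} (h : Hit J E inc k) :
    ∃ S : Finset (Vx J E), S.card ≤ J + E + 1 + k ∧ LD (GG J E inc) S := by
  classical
  obtain ⟨T, hT1, hT2, hT3⟩ := h
  let f : ℕ → Vx J E := fun e => if he : e < E then .v ⟨e, he⟩ else .u
  refine ⟨(Finset.univ.image fun g => Vx.b g true) ∪ T.image f, ?_, ?_⟩
  · refine (Finset.card_union_le _ _).trans (Nat.add_le_add ?_ ?_)
    · refine Finset.card_image_le.trans ?_
      simp
    · exact Finset.card_image_le.trans hT2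
  · have hb : ∀ g, Vx.b g true ∈ (Finset.univ.image fun g => Vx.b (J := J) (E := E) g true) ∪
        T.image f := fun g => Finset.mem_union_left _ (Finset.mem_image.2 ⟨g, by simp, rfl⟩)
    have hv : ∀ e ∈ T, ∃ he : e < E, Vx.v ⟨e, he⟩ ∈
        (Finset.univ.image fun g => Vx.b (J := J) (E := E) g true) ∪ T.image f := by
      intro e he
      refine ⟨hT1 e he, Finset.mem_union_right _ (Finset.mem_image.2 ⟨e, he, ?_⟩)⟩
      simp only [f]
      rw [dif_pos (hT1 e he)]
    generalize (Finset.univ.image fun g => Vx.b (J := J) (E := E) g true) ∪ T.image f = S at hb hv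
    -- separation by a twin
    have sep : ∀ x y : Vx J E, (∃ g, ¬ ((GG J E inc).Adj (.b g true) x ↔
        (GG J E inc).Adj (.b g true) y)) → ∃ z ∈ S, ¬ ((GG J E inc).Adj z x ↔
        (GG J E inc).Adj z y) := fun x y ⟨g, hg⟩ => ⟨_, hb g, hg⟩
    have sep' : ∀ x y : Vx J E, (∃ z ∈ S, ¬ ((GG J E inc).Adj z x ↔
        (GG J E inc).Adj z y)) → ∃ z ∈ S, ¬ ((GG J E inc).Adj z y ↔
        (GG J E inc).Adj z x) := fun x y ⟨z, hz, h⟩ => ⟨z, hz, fun h' => h h'.symm⟩
    have ub : ∀ g, (GG J E inc).Adj (.b g true) .u := fun g => (adj_u.2 (by simp)).symm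
    -- `u` against the others
    have hu : ∀ x : Vx J E, x ≠ .u → x ∉ S → ∃ z ∈ S, ¬ ((GG J E inc).Adj z x ↔
        (GG J E inc).Adj z .u) := by
      intro x hx hxS
      cases x with
      | u => exact absurd rfl hx
      | b g s =>
        apply sep
        by_cases hg : g.1 = 0
        · refine ⟨⟨1, by omega⟩, fun h => ?_⟩
          have := h.2 (ub _)
          rw [adj_bb] at this
          rw [← this.1] at hg
          simp at hg
        · refine ⟨⟨0, by omega⟩, fun h => ?_⟩
          have := h.2 (ub _)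
          rw [adj_bb] at this
          rw [← this.1] at hg
          simp at hg
      | c j s =>
        apply sep
        refine ⟨⟨J, by omega⟩, fun h => ?_⟩
        have := h.2 (ub _)
        rw [adj_bc] at this
        have := j.2
        simp only at *
        omega
      | v e =>
        apply sep
        refine ⟨⟨0, by omega⟩, fun h => ?_⟩
        have := h.2 (ub _)
        rw [adj_bv] at this
        simp only at *
        omega
    -- twins against the members
    have hbx : ∀ (g : Fin (J + E + 1)) (s : Bool) (x : Vx J E), (.b g s : Vx J E) ∉ S →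
        ((∃ j s', x = .c j s') ∨ ∃ e, x = .v e) →
        ∃ z ∈ S, ¬ ((GG J E inc).Adj z (.b g s) ↔ (GG J E inc).Adj z x) := by
      intro g s x hg hx
      apply sep
      have hs : s = false := by
        cases s
        · rfl
        · exact absurd (hb g) hg
      subst hs
      by_cases hgl : g.1 = J + E
      · rcases hx with ⟨j, s', rfl⟩ | ⟨e, rfl⟩
        · refine ⟨⟨j.1, by omega⟩, fun h => ?_⟩
          have h1 := h.2 (adj_bc.2 (Or.inl rfl))
          rw [adj_bb] at h1
          have h2 := congrArg Fin.val h1.1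
          simp only at h2
          omega
        · refine ⟨⟨J + e.1, by omega⟩, fun h => ?_⟩
          have h1 := h.2 (adj_bv.2 (Or.inl rfl))
          rw [adj_bb] at h1
          have h2 := congrArg Fin.val h1.1
          simp only at h2
          omega
      · refine ⟨⟨J + E, by omega⟩, fun h => ?_⟩
        have h0 : (GG J E inc).Adj (.b ⟨J + E, by omega⟩ true) x := by
          rcases hx with ⟨j, s', rfl⟩ | ⟨e, rfl⟩
          · exact adj_bc.2 (Or.inr rfl)
          · exact adj_bv.2 (Or.inr rfl)
        have h1 := h.2 h0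
        rw [adj_bb] at h1
        have h2 := congrArg Fin.val h1.1
        simp only at h2
        omega
    have hcv : ∀ (j : Fin J) (s : Bool) (e : Fin E),
        ∃ z ∈ S, ¬ ((GG J E inc).Adj z (.c j s) ↔ (GG J E inc).Adj z (.v e)) := by
      intro j s e
      apply sep
      refine ⟨⟨j.1, by omega⟩, fun h => ?_⟩
      have h1 := h.1 (adj_bc.2 (Or.inl rfl))
      rw [adj_bv] at h1
      have := j.2
      simp only at h1
      omega
    have hcc : ∀ j : Fin J, ∃ z ∈ S, ¬ ((GG J E inc).Adj z (.c j true) ↔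
        (GG J E inc).Adj z (.c j false)) := by
      intro j
      obtain ⟨e, he, hje⟩ := hT3 j.1 j.2
      obtain ⟨he', hS⟩ := hv e he
      refine ⟨_, hS, fun h => ?_⟩
      have := h.1 (adj_vc.2 ⟨rfl, hje⟩)
      rw [adj_vc] at this
      exact absurd this.1 (by simp)
    intro x y hxy hx hy
    cases x with
    | u => exact sep' _ _ (hu y hxy.symm hy)
    | b g s =>
      cases y with
      | u => exact hu _ hxy hx
      | b g' s' =>
        have hs : s = false := by
          cases s
          · rfl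
          · exact absurd (hb g) hx
        have hs' : s' = false := by
          cases s'
          · rfl
          · exact absurd (hb g') hy
        subst hs hs'
        apply sep
        refine ⟨g, fun h => ?_⟩
        have := h.1 (adj_bb.2 ⟨rfl, by simp⟩)
        rw [adj_bb] at this
        exact hxy (by rw [this.1])
      | c j s' => exact hbx _ _ _ hx (Or.inl ⟨_, _, rfl⟩)
      | v e => exact hbx _ _ _ hx (Or.inr ⟨_, rfl⟩)
    | c j s =>
      cases y with
      | u => exact hu _ hxy hx
      | b g' s' => exact sep' _ _ (hbx _ _ _ hy (Or.inl ⟨_, _, rfl⟩))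
      | c j' s' =>
        by_cases hj : j = j'
        · subst hj
          cases s <;> cases s'
          · exact absurd rfl hxy
          · exact sep' _ _ (hcc j)
          · exact hcc j
          · exact absurd rfl hxy
        · apply sep
          refine ⟨⟨j.1, by omega⟩, fun h => ?_⟩
          have h1 := h.1 (adj_bc.2 (Or.inl rfl))
          rw [adj_bc] at h1
          have := j.2
          simp only at h1
          rcases h1 with h1 | h1
          · exact hj (Fin.ext h1)
          · omega
      | v e => exact hcv _ _ _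
    | v e =>
      cases y with
      | u => exact hu _ hxy hx
      | b g' s' => exact sep' _ _ (hbx _ _ _ hy (Or.inr ⟨_, rfl⟩))
      | c j' s' => exact sep' _ _ (hcv _ _ _)
      | v e' =>
        apply sep
        refine ⟨⟨J + e.1, by omega⟩, fun h => ?_⟩
        have h1 := h.1 (adj_bv.2 (Or.inl rfl))
        rw [adj_bv] at h1
        have := e.2
        simp only at h1
        rcases h1 with h1 | h1
        · exact hxy (by rw [Fin.ext (by omega : e.1 = e'.1)])
        · omega

/-- From a resolving set to a hitting set. -/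
theorem hit_of_LD (hne : ∀ j < J, ∃ e < E, inc j e = true) (hE : 1 ≤ E) {k : ℕ}
    (h : ∃ S : Finset (Vx J E), S.card ≤ J + E + 1 + k ∧ LD (GG J E inc) S) : Hit J E inc k := by
  classical
  obtain ⟨S, hS, hLD⟩ := h
  -- every pair of twins meets `S`
  have htw : ∀ g : Fin (J + E + 1), ∃ s, Vx.b g s ∈ S := by
    intro g
    by_contra hcon
    push Not at hcon
    obtain ⟨z, hz, hzz⟩ := hLD (.b g true) (.b g false) (by simp) (hcon _) (hcon _)
    apply hzz
    cases z with
    | u => rw [adj_u, adj_u]; simp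
    | b g' s' =>
      rw [adj_bb, adj_bb]
      by_cases hg : g' = g
      · subst hg
        exact absurd hz (hcon s')
      · simp [hg]
    | c j s =>
      rw [(GG J E inc).adj_comm, (GG J E inc).adj_comm (.c j s), adj_bc, adj_bc]
    | v e =>
      rw [(GG J E inc).adj_comm, (GG J E inc).adj_comm (.v e), adj_bv, adj_bv]
  choose t ht using htw
  choose! p hp1 hp2 using hne
  let F : Vx J E → ℕ := fun x => match x with
    | .u => 0
    | .b _ _ => 0
    | .c j _ => p j.1
    | .v e => e.1
  let B : Finset (Vx J E) := Finset.univ.image fun g => Vx.b g (t g)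
  have hB : B ⊆ S := by
    intro x hx
    obtain ⟨g, _, rfl⟩ := Finset.mem_image.1 hx
    exact ht g
  have hBc : B.card = J + E + 1 := by
    rw [Finset.card_image_of_injective _ (fun g g' h => by simpa using (Vx.b.inj h).1)]
    simp
  refine ⟨(S \ B).image F, ?_, ?_, ?_⟩
  · intro e he
    obtain ⟨x, _, rfl⟩ := Finset.mem_image.1 he
    cases x with
    | u => exact hE
    | b _ _ => exact hE
    | c j _ => exact hp1 j.1 j.2
    | v e => exact e.2
  · refine Finset.card_image_le.trans ?_
    rw [Finset.card_sdiff_of_subset hB, hBc]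
    omega
  · intro j hj
    have hnB : ∀ x : Vx J E, x ∈ S → (∀ g s, x ≠ .b g s) → x ∈ S \ B := by
      intro x hx hxb
      rw [Finset.mem_sdiff]
      refine ⟨hx, fun h => ?_⟩
      obtain ⟨g, _, rfl⟩ := Finset.mem_image.1 h
      exact hxb _ _ rfl
    by_cases h1 : Vx.c ⟨j, hj⟩ true ∈ S
    · exact ⟨_, Finset.mem_image.2 ⟨_, hnB _ h1 (by simp), rfl⟩, hp2 j hj⟩
    by_cases h2 : Vx.c ⟨j, hj⟩ false ∈ S
    · exact ⟨_, Finset.mem_image.2 ⟨_, hnB _ h2 (by simp), rfl⟩, hp2 j hj⟩
    obtain ⟨z, hz, hzz⟩ := hLD _ _ (by simp) h1 h2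
    cases z with
    | u => rw [adj_u, adj_u] at hzz; simp at hzz
    | b g s => rw [adj_bc, adj_bc] at hzz; exact absurd Iff.rfl hzz
    | c j' s => exact absurd (iff_of_false adj_cc adj_cc) hzz
    | v e =>
      rw [adj_vc, adj_vc] at hzz
      have h3 : inc j e.1 = true := by
        by_contra h3
        exact hzz (iff_of_false (fun h => h3 h.2) (fun h => h3 h.2))
      exact ⟨e.1, Finset.mem_image.2 ⟨_, hnB _ hz (by simp), rfl⟩, h3⟩

end Pool.Agent.Q324.BD
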