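import Pool.Agent.Q324.BD.Defs

/-!
# The broadcast dimension of graphs of diameter at most two
-/

namespace Pool.Agent.Q324.BD

variable {V W : Type*}

/-- Any two vertices outside `S` are separated by the neighbourhood of a vertex of `S`. -/
def LD (G : SimpleGraph V) (S : Finset V) : Prop :=
  ∀ x y, x ≠ y → x ∉ S → y ∉ S → ∃ z ∈ S, ¬ (G.Adj z x ↔ G.Adj z y)

theorem dk_self (G : SimpleGraph V) (k : ℕ) (x : V) : dk G k x x = 0 := by
  simp [dk]

theorem dk_ne_zero (G : SimpleGraph V) (k : ℕ) {x y : V} (h : x ≠ y) : dk G k x y ≠ 0 := by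
  unfold dk
  intro h0
  rw [min_eq_iff] at h0
  rcases h0 with ⟨h1, _⟩ | ⟨h1, _⟩
  · exact h (SimpleGraph.edist_eq_zero_iff.1 h1)
  · simp at h1

theorem dk_adj (G : SimpleGraph V) {k : ℕ} {x y : V} (h : G.Adj x y) : dk G k x y = 1 := by
  unfold dk
  rw [SimpleGraph.edist_eq_one_iff_adj.2 h]
  apply min_eq_left
  simp

theorem dk_not_adj (G : SimpleGraph V) {k : ℕ} (hk : 0 < k) {x y : V} (h : ¬ G.Adj x y) :
    dk G k x y ≠ 1 := by
  unfold dk
  intro h0
  rw [min_eq_iff] at h0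
  rcases h0 with ⟨h1, _⟩ | ⟨h1, _⟩
  · exact h (SimpleGraph.edist_eq_one_iff_adj.1 h1)
  · have h2 : ((k + 1 : ℕ) : ℕ∞) = ((1 : ℕ) : ℕ∞) := by
      push_cast
      exact h1
    rw [Nat.cast_inj] at h2
    omega

theorem resolving_of_LD [DecidableEq V] {G : SimpleGraph V} {S : Finset V} (h : LD G S) :
    Resolving G (fun v => if v ∈ S then 1 else 0) := by
  intro x y hxy
  by_cases hx : x ∈ S
  · refine ⟨x, by simp [hx], ?_⟩
    rw [dk_self]
    exact (dk_ne_zero G _ hxy.symm).symm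
  by_cases hy : y ∈ S
  · refine ⟨y, by simp [hy], ?_⟩
    rw [dk_self]
    exact dk_ne_zero G _ hxy
  obtain ⟨z, hz, hzz⟩ := h x y hxy hx hy
  refine ⟨z, by simp [hz], ?_⟩
  by_cases h1 : G.Adj z x
  · have h2 : ¬ G.Adj z y := fun h2 => hzz ⟨fun _ => h2, fun _ => h1⟩
    rw [dk_adj G h1.symm]
    exact (dk_not_adj G (by simp [hz]) (fun h3 => h2 h3.symm)).symm
  · have h2 : G.Adj z y := by
      by_contra h2
      exact hzz ⟨fun h => absurd h h1, fun h => absurd h h2⟩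
    rw [dk_adj G h2.symm]
    exact dk_not_adj G (by simp [hz]) (fun h3 => h1 h3.symm)

/-- diameter at most two -/
def Diam2 (G : SimpleGraph V) : Prop := ∀ x y, G.edist x y ≤ 2

theorem edist_eq_two {G : SimpleGraph V} (hd : Diam2 G) {x y : V} (hne : x ≠ y)
    (h : ¬ G.Adj x y) : G.edist x y = 2 := by
  refine le_antisymm (hd x y) ?_
  by_contra h1
  rw [not_le] at h1
  have h2 : G.edist x y ≤ 1 := by
    have : (2 : ℕ∞) = 1 + 1 := by norm_num
    rw [this] at h1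
    exact Order.le_of_lt_add_one h1
  rcases SimpleGraph.edist_le_one_iff_adj_or_eq.1 h2 with h3 | h3
  · exact h h3
  · exact hne h3

theorem LD_of_resolving [Fintype V] [DecidableEq V] {G : SimpleGraph V} (hd : Diam2 G) {f : V → ℕ}
    (h : Resolving G f) : LD G (Finset.univ.filter (fun v => 0 < f v)) := by
  intro x y hxy hx hy
  obtain ⟨z, hz, hzz⟩ := h x y hxy
  refine ⟨z, by simp [hz], fun h1 => hzz ?_⟩
  have hxz : x ≠ z := by
    rintro rfl
    exact hx (by simp [hz])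
  have hyz : y ≠ z := by
    rintro rfl
    exact hy (by simp [hz])
  by_cases h2 : G.Adj z x
  · rw [dk_adj G h2.symm, dk_adj G (h1.1 h2).symm]
  · have h3 : ¬ G.Adj z y := fun h3 => h2 (h1.2 h3)
    unfold dk
    rw [edist_eq_two hd hxz (fun h => h2 h.symm), edist_eq_two hd hyz (fun h => h3 h.symm)]

theorem exists_resolving (G : SimpleGraph V) : Resolving G (fun _ => 1) := by
  intro x y hxy
  refine ⟨x, one_pos, ?_⟩
  rw [dk_self]
  exact (dk_ne_zero G _ hxy.symm).symm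

theorem bdim_le_iff [Fintype V] (G : SimpleGraph V) (k : ℕ) :
    bdim G ≤ k ↔ ∃ f : V → ℕ, Resolving G f ∧ ∑ v, f v ≤ k := by
  constructor
  · intro h
    have h0 : {c | ∃ f : V → ℕ, Resolving G f ∧ ∑ v, f v = c}.Nonempty :=
      ⟨_, fun _ => 1, exists_resolving G, rfl⟩
    have h1 := Nat.sInf_mem h0
    obtain ⟨f, hf, hf'⟩ := h1
    exact ⟨f, hf, hf'.le.trans h⟩
  · rintro ⟨f, hf, hf'⟩
    have h2 : ∑ v, f v ∈ {c | ∃ f : V → ℕ, Resolving G f ∧ ∑ v, f v = c} := ⟨f, hf, rfl⟩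
    exact (Nat.sInf_le h2).trans hf'

theorem bdim_le_iff_LD [Fintype V] [DecidableEq V] {G : SimpleGraph V} (hd : Diam2 G) (k : ℕ) :
    bdim G ≤ k ↔ ∃ S : Finset V, S.card ≤ k ∧ LD G S := by
  rw [bdim_le_iff]
  constructor
  · rintro ⟨f, hf, hfk⟩
    refine ⟨_, ?_, LD_of_resolving hd hf⟩
    refine le_trans ?_ hfk
    rw [Finset.card_filter]
    refine Finset.sum_le_sum fun v _ => ?_
    split_ifs with h
    · exact h
    · exact Nat.zero_le _
  · rintro ⟨S, hS, hLD⟩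
    refine ⟨_, resolving_of_LD hLD, ?_⟩
    rw [Finset.sum_ite_mem, Finset.univ_inter, Finset.sum_const]
    simpa using hS

theorem LD_iso {G : SimpleGraph V} {H : SimpleGraph W} (e : G ≃g H) {k : ℕ}
    (h : ∃ S : Finset V, S.card ≤ k ∧ LD G S) : ∃ S : Finset W, S.card ≤ k ∧ LD H S := by
  classical
  obtain ⟨S, hS, hLD⟩ := h
  refine ⟨S.map e.toEquiv.toEmbedding, by rw [Finset.card_map]; exact hS, ?_⟩
  intro x y hxy hx hy
  have key : ∀ w, w ∈ S.map e.toEquiv.toEmbedding ↔ e.symm w ∈ S := by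
    intro w
    rw [Finset.mem_map_equiv]
    rfl
  rw [key] at hx hy
  obtain ⟨z, hz, hzz⟩ := hLD (e.symm x) (e.symm y) (fun h => hxy (e.symm.injective h)) hx hy
  refine ⟨e z, by rw [key]; simpa using hz, fun h => hzz ?_⟩
  have h1 : ∀ w, H.Adj (e z) w ↔ G.Adj z (e.symm w) := by
    intro w
    rw [← e.map_adj_iff]
    simp
  rwa [h1, h1] at h

theorem diam2_iso {G : SimpleGraph V} {H : SimpleGraph W} (e : G ≃g H)
    (h : ∃ u, ∀ v, v ≠ u → H.Adj u v) : ∃ u, ∀ v, v ≠ u → G.Adj u v := by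
  obtain ⟨u, hu⟩ := h
  refine ⟨e.symm u, fun v hv => ?_⟩
  rw [← e.map_adj_iff]
  simp only [RelIso.apply_symm_apply]
  exact hu _ (fun h => hv (by rw [← h]; simp))

theorem diam2_of_universal {G : SimpleGraph V} (h : ∃ u, ∀ v, v ≠ u → G.Adj u v) : Diam2 G := by
  obtain ⟨u, hu⟩ := h
  intro x y
  by_cases hx : x = u
  · subst hx
    by_cases hy : y = x
    · subst hy
      simp
    · rw [SimpleGraph.edist_eq_one_iff_adj.2 (hu y hy)]
      norm_num
  by_cases hy : y = u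
  · subst hy
    rw [SimpleGraph.edist_eq_one_iff_adj.2 (hu x hx).symm]
    norm_num
  · refine (SimpleGraph.edist_triangle (v := u)).trans ?_
    rw [SimpleGraph.edist_eq_one_iff_adj.2 (hu x hx).symm,
      SimpleGraph.edist_eq_one_iff_adj.2 (hu y hy)]
    norm_num

end Pool.Agent.Q324.BD
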