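import Pool.Agent.Q324.BD.Graph
import Pool.Agent.Q324.Base.HS
import Pool.Agent.Q324.Lab.Basic

/-!
# Computing the broadcast dimension is NP-hard
-/

namespace Pool.Agent.Q324.BD

open Pool.Agent.NPC Pool.Agent.H692R2 Pool.Agent.Q324.Base Pool.Agent.Q324.Lab

/-- the labels of the vertices -/
def vs (J E : ℕ) : List Lb :=
  (0, 0, false) :: (((List.range (J + E + 1)).flatMap fun g => [(1, g, true), (1, g, false)]) ++
    (((List.range J).flatMap fun j => [(2, j, true), (2, j, false)]) ++
      (List.range E).map fun e => (3, e, false)))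

theorem mem_vs {J E : ℕ} (z : Lb) : z ∈ vs J E ↔ ∃ x : Vx J E, code x = z := by
  unfold vs
  simp only [List.mem_cons, List.mem_append, List.mem_flatMap, List.mem_range, List.mem_map,
    List.not_mem_nil, or_false]
  constructor
  · rintro (rfl | ⟨g, hg, rfl | rfl⟩ | ⟨j, hj, rfl | rfl⟩ | ⟨e, he, rfl⟩)
    · exact ⟨.u, rfl⟩
    · exact ⟨.b ⟨g, hg⟩ true, rfl⟩
    · exact ⟨.b ⟨g, hg⟩ false, rfl⟩
    · exact ⟨.c ⟨j, hj⟩ true, rfl⟩
    · exact ⟨.c ⟨j, hj⟩ false, rfl⟩
    · exact ⟨.v ⟨e, he⟩, rfl⟩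
  · rintro ⟨x, rfl⟩
    cases x with
    | u => exact Or.inl rfl
    | b g s =>
      refine Or.inr (Or.inl ⟨g.1, g.2, ?_⟩)
      cases s
      · exact Or.inr rfl
      · exact Or.inl rfl
    | c j s =>
      refine Or.inr (Or.inr (Or.inl ⟨j.1, j.2, ?_⟩))
      cases s
      · exact Or.inr rfl
      · exact Or.inl rfl
    | v e => exact Or.inr (Or.inr (Or.inr ⟨e.1, e.2, rfl⟩))

theorem nodup_vs {J E : ℕ} : (vs J E).Nodup := by
  have key : ∀ (t n : ℕ), ((List.range n).flatMap fun g => [(t, g, true), (t, g, false)]).Nodup := by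
    intro t n
    rw [List.nodup_flatMap]
    refine ⟨fun g _ => by simp, ?_⟩
    refine List.nodup_range.imp ?_
    intro a b hab x hx hx'
    simp only [List.mem_cons, List.not_mem_nil, or_false] at hx hx'
    rcases hx with rfl | rfl <;> rcases hx' with h | h <;> simp at h <;> exact hab h
  unfold vs
  rw [List.nodup_cons]
  refine ⟨?_, ?_⟩
  · simp
  · rw [List.nodup_append]
    refine ⟨key _ _, ?_, ?_⟩
    · rw [List.nodup_append]
      refine ⟨key _ _, ?_, ?_⟩
      · exact List.Nodup.map (fun a b h => by simpa using h) List.nodup_range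
      · intro a ha b hb
        simp only [List.mem_flatMap, List.mem_map, List.mem_cons, List.not_mem_nil, or_false]
          at ha hb
        obtain ⟨j, _, rfl | rfl⟩ := ha <;> obtain ⟨e, _, rfl⟩ := hb <;> simp
    · intro a ha b hb
      simp only [List.mem_flatMap, List.mem_map, List.mem_cons, List.not_mem_nil, or_false,
        List.mem_append] at ha hb
      obtain ⟨j, _, rfl | rfl⟩ := ha <;>
        rcases hb with ⟨e, _, rfl | rfl⟩ | ⟨e, _, rfl⟩ <;> simp

/-- the incidence -/
def inc (S : List (List ℕ)) (j e : ℕ) : Bool := decide (e ∈ S.getD j [])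

/-- the number of elements -/
def ne (I : HSInst) : ℕ := min I.2.1 (6 * I.1.length)

/-- the reduction -/
def red (I : HSInst) : FinGraph × ℕ :=
  (labGraph (vs I.1.length (ne I)) (ad I.1.length (ne I) (inc I.1)),
    I.1.length + ne I + 1 + I.2.2)

theorem ne_upoly : UPoly ne := by
  refine UPoly.of_le (n := fun I : HSInst => 6 * I.1.length) ?_
    (UPoly.mul (UPoly.const 6) (UPoly.length (Poly.fst Poly.id))) (fun I => min_le_right _ _)
  unfold ne
  fun_prop

theorem vs_poly : Poly (fun I : HSInst => vs I.1.length (ne I)) := by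
  have hJ : UPoly (fun I : HSInst => I.1.length) := UPoly.length (Poly.fst Poly.id)
  have h1 : Poly (fun I : HSInst => List.range (I.1.length + ne I + 1)) :=
    UPoly.range (UPoly.add (UPoly.add hJ ne_upoly) (UPoly.const 1))
  have h2 : Poly (fun I : HSInst => List.range I.1.length) := UPoly.range hJ
  have h3 : Poly (fun I : HSInst => List.range (ne I)) := UPoly.range ne_upoly
  unfold vs
  refine NPC.Poly.cons (NPC.Poly.const _) (Poly.append ?_ (Poly.append ?_ ?_))
  · exact NPC.Poly.flatMap (F := fun _ g => [((1, g, true) : Lb), (1, g, false)]) h1 (by fun_prop)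
  · exact NPC.Poly.flatMap (F := fun _ g => [((2, g, true) : Lb), (2, g, false)]) h2 (by fun_prop)
  · exact NPC.Poly.map (F := fun _ g => ((3, g, false) : Lb)) h3 (by fun_prop)

theorem red_poly : Poly red := by
  have hn : Poly ne := ne_upoly.toPoly
  unfold red
  refine Poly.pair (poly_labGraph vs_poly ?_) (by fun_prop)
  unfold ad inc
  fun_prop

theorem red_equiv (I : HSInst) : Nonempty ((red I).1.graph ≃g
    GG I.1.length (ne I) (inc I.1)) :=
  labIso _ nodup_vs code code_inj mem_vs (fun _ _ => Iff.rfl)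

theorem hit_iff {I : HSInst} (hI : HSOk I) :
    HS I ↔ Hit I.1.length (ne I) (inc I.1) I.2.2 := by
  have hn : ne I = I.2.1 := min_eq_left hI.2.2.1
  rw [hn]
  unfold HS Hit
  refine exists_congr fun S => and_congr_right fun _ => and_congr_right fun _ => ?_
  constructor
  · intro h j hj
    obtain ⟨x, hx, hxS⟩ := h _ (List.getElem_mem hj)
    exact ⟨x, hxS, by unfold inc; rw [List.getD_eq_getElem _ _ hj]; simpa using hx⟩
  · intro h s hs
    obtain ⟨j, hj, rfl⟩ := List.getElem_of_mem hs
    obtain ⟨x, hxS, hx⟩ := h j hj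
    unfold inc at hx
    rw [List.getD_eq_getElem _ _ hj] at hx
    exact ⟨x, by simpa using hx, hxS⟩

theorem universal (I : HSInst) : ∃ u, ∀ v, v ≠ u → (red I).1.graph.Adj u v := by
  obtain ⟨e⟩ := red_equiv I
  exact diam2_iso e ⟨.u, fun v hv => adj_u.2 hv⟩

theorem red_correct {I : HSInst} (hI : HSOk I) : HS I ↔ bdim (red I).1.graph ≤ (red I).2 := by
  classical
  obtain ⟨e⟩ := red_equiv I
  have hn : ne I = I.2.1 := min_eq_left hI.2.2.1
  have hJ : 1 ≤ I.1.length := List.length_pos_iff.2 hI.1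
  have hE : 1 ≤ ne I := by
    rw [hn]
    exact hI.2.2.2.2.trans hI.2.2.2.1
  have hne : ∀ j < I.1.length, ∃ e < ne I, inc I.1 j e = true := by
    intro j hj
    obtain ⟨h1, _, h2⟩ := hI.2.1 _ (List.getElem_mem hj)
    obtain ⟨x, hx⟩ := List.exists_mem_of_ne_nil _ h1
    refine ⟨x, by rw [hn]; exact h2 x hx, ?_⟩
    unfold inc
    rw [List.getD_eq_getElem _ _ hj]
    simpa using hx
  rw [hit_iff hI, bdim_le_iff_LD (diam2_of_universal (universal I))]
  constructor
  · intro h
    exact LD_iso e.symm (LD_of_hit hJ hE h)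
  · intro h
    exact hit_of_LD hne hE (LD_iso e h)

theorem hard : HardPr (fun I : FinGraph × ℕ => ∃ u, ∀ v, v ≠ u → I.1.graph.Adj u v)
    (fun I : FinGraph × ℕ => bdim I.1.graph ≤ I.2) :=
  hardPr_HS.trans red_poly (fun I _ => universal I) (fun _ hI => red_correct hI)

end Pool.Agent.Q324.BD
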